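import Pool.Agent.helper70.Oct.Defs

set_option autoImplicit false

/-!
# Combinatorial checker

Fast versions of the conditions `Comb` of a certificate; the list of columns may be checked in
pieces.
-/

open Set

namespace Oct

/-- global data of a certificate; `PT`, `ST`: packed tables of the parents (6 bits each) and of
the signs of the regions (1 bit each) -/
structure Gl where
  par : List ℕ
  s0 : Bool
  pl : ℤ
  sp : Bool
  rp0 : ℕ
  rp1 : ℕ
  PT : ℕ
  ST : ℕ

def ltZ (a b : ℤ) : Bool :=
  match a, b with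
  | Int.ofNat m, Int.ofNat n => Nat.blt m n
  | Int.negSucc _, Int.ofNat _ => true
  | Int.ofNat _, Int.negSucc _ => false
  | Int.negSucc m, Int.negSucc n => Nat.blt n m

def leZ (a b : ℤ) : Bool :=
  match a, b with
  | Int.ofNat m, Int.ofNat n => Nat.ble m n
  | Int.negSucc _, Int.ofNat _ => true
  | Int.ofNat _, Int.negSucc _ => false
  | Int.negSucc m, Int.negSucc n => Nat.ble n m

def eqZ (a b : ℤ) : Bool :=
  match a, b with
  | Int.ofNat m, Int.ofNat n => Nat.beq m n
  | Int.negSucc _, Int.ofNat _ => false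
  | Int.ofNat _, Int.negSucc _ => false
  | Int.negSucc m, Int.negSucc n => Nat.beq m n

def negZ (a : ℤ) : ℤ :=
  match a with
  | Int.ofNat 0 => Int.ofNat 0
  | Int.ofNat (n + 1) => Int.negSucc n
  | Int.negSucc n => Int.ofNat (n + 1)

def upF (PT : ℕ) (z : ℤ) : ℤ :=
  match z with
  | Int.ofNat n => Int.ofNat (Nat.land (Nat.shiftRight PT (Nat.mul 6 n)) 63)
  | Int.negSucc n => negZ (Int.ofNat (Nat.land (Nat.shiftRight PT (Nat.mul 6 (Nat.succ n))) 63))

def sgF (ST : ℕ) (z : ℤ) : Bool :=
  match z with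
  | Int.ofNat n => Nat.beq (Nat.land (Nat.shiftRight ST n) 1) 1
  | Int.negSucc n => Nat.beq (Nat.land (Nat.shiftRight ST (Nat.succ n)) 1) 1

/-- the packed tables are correct -/
def glOK (g : Gl) : Bool :=
  (g.sp == sgnR g.par g.s0 g.pl) && Nat.blt 0 g.par.length &&
  decide (g.pl.natAbs ≤ g.par.length) && Nat.blt g.par.length 64 &&
  (List.range g.par.length).all (fun i => Nat.ble (g.par.getD i 0) i) &&
  (List.range (g.par.length + 1)).all (fun n =>
    decide (upF g.PT (n : ℤ) = up g.par n) && (sgF g.ST (n : ℤ) == sgnR g.par g.s0 n))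

/-- label of the positive or negative part of a box -/
def regF (g : Gl) (b : Box) (s : Bool) : ℤ :=
  match b.ty with
  | 0 => b.lab
  | _ => if sgF g.ST b.lab == s then b.lab else upF g.PT b.lab

def blF (g : Gl) (b : Box) (s : S3) : ℤ :=
  match s with
  | S3.p => regF g b true
  | S3.n => regF g b false
  | S3.z => b.lab

def segF (g : Gl) (al be m : ℤ) (right : Bool) (b : Box) : Seg :=
  { lo := m * (al * b.lo + be), hi := m * (al * b.hi + be)
    df := Nat.beq b.ty 0 || (if right then Nat.beq b.ty 3 else Nat.beq b.ty 2)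
    mo := Nat.beq b.ty 1
    sl := b.sl, sh := b.sh
    lp := regF g b true, ln := regF g b false, lz := b.lab
    rp0 := b.rp0, rn0 := b.rn0, rz0 := b.rz0, rp1 := b.rp1, rn1 := b.rn1, rz1 := b.rz1 }

/-- segments of a side of a column -/
def segsF (g : Gl) (c : Column) (t m : ℤ) (right : Bool) : List Seg :=
  c.bx.map (segF g c.ch.al (c.ch.beZ t) m right)

def flipF (L : List Seg) : List Seg := (L.map Seg.flip).reverse

/-- `pres` for overlapping segments -/
def presF (e e' : Seg) : Option (Bool × Bool × Bool) :=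
  if e.df then some (e.sl, !e.sl, false)
  else if e'.df then some (e'.sl, !e'.sl, false)
  else if e.mo || e'.mo then
    let s1 := if leZ e'.lo e.lo then e.sl else e'.sl
    let s2 := if leZ e.hi e'.hi then e.sh else e'.sh
    if s1 == s2 then some (s1, !s1, false) else some (true, true, true)
  else none

/-- labels agree on the intersection -/
def okP (e e' : Seg) : Bool :=
  if ltZ e.hi e'.lo || ltZ e'.hi e.lo then true
  else match presF e e' with
    | none => false
    | some (p, n, z) => (!p || eqZ e.lp e'.lp) && (!n || eqZ e.ln e'.ln) && (!z || eqZ e.lz e'.lz)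

/-- all the pairs of two sorted lists of segments; the first argument is the fuel -/
def sweep : ℕ → List Seg → List Seg → Bool
  | 0, _, _ => false
  | k + 1, e :: E, e' :: E' => okP e e' &&
      (if ltZ e.hi e'.hi then sweep k E (e' :: E')
       else if ltZ e'.hi e.hi then sweep k (e :: E) E'
       else (match E' with
          | [] => true
          | f' :: _ => okP e f') && (match E with
          | [] => true
          | f :: _ => okP f e') && sweep k E E')
  | _ + 1, _, _ => true

def lbS (e : Seg) (s : Bool) : ℤ := if s then e.lp else e.ln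

/-- lowest and highest point of a list of segments -/
def loS (L : List Seg) : ℤ := match L.head? with | some e => e.lo | none => 0
def hiS (L : List Seg) : ℤ := match L.getLast? with | some e => e.hi | none => 0

/-- the two sides `E`, `E'` of a ray fit together -/
def glueF (g : Gl) (E E' : List Seg) : Bool :=
  let l := loS E
  let h := hiS E
  let l' := loS E'
  let h' := hiS E'
  ltZ l h' && ltZ l' h &&
  E'.all (fun e => (ltZ e.hi h || eqZ (lbS e g.sp) g.pl) && (ltZ l e.lo || eqZ (lbS e g.sp) (negZ g.pl))) &&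
  E.all (fun e => (ltZ e.hi h' || eqZ (lbS e g.sp) g.pl) && (ltZ l' e.lo || eqZ (lbS e g.sp) (negZ g.pl))) &&
  sweep (E.length + E'.length + 1) E E'

/-- a neighbour in the list `L` of overlapping segments; `lft`: own segment is on the left -/
def nbF (e : Seg) (L : List Seg) (lft : Bool) (l : Bool) (s : S3) (r : ℕ) : Bool :=
  L.any (fun e' => Nat.blt (e'.rk l s) r && leZ e.lo e'.hi && leZ e'.lo e.hi &&
    (match (if lft then presF e e' else presF e' e) with
      | none => false
      | some (p, n, z) => match s with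
        | S3.p => p
        | S3.n => n
        | S3.z => z))

/-- rank condition for one part of a box -/
def rkF (rb rt : ℕ) (prev next : Option Box) (b : Box) (eR eL : Seg) (LN LP : List Seg) (l : Bool)
    (s : S3) : Bool :=
  let r := b.rk l s
  Nat.beq r 0 ||
  (decide (s = S3.of b.sl) && (match prev with
    | none => Nat.blt rb r
    | some b' => Nat.blt (b'.rk l s) r)) ||
  (decide (s = S3.of b.sh) && (match next with
    | none => Nat.blt rt r
    | some b' => Nat.blt (b'.rk l s) r)) ||
  nbF eR LN true l s r || nbF eL LP false l s r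

def rkBox (rb0 rb1 rt0 rt1 : ℕ) (prev next : Option Box) (b : Box) (eR eL : Seg)
    (LN LP : List Seg) : Bool :=
  match b.ty with
  | 0 => rkF rb0 rt0 prev next b eR eL LN LP false (S3.of b.sl) &&
      rkF rb1 rt1 prev next b eR eL LN LP true (S3.of b.sl)
  | _ => rkF rb0 rt0 prev next b eR eL LN LP false S3.p &&
      rkF rb1 rt1 prev next b eR eL LN LP true S3.p &&
      rkF rb0 rt0 prev next b eR eL LN LP false S3.n &&
      rkF rb1 rt1 prev next b eR eL LN LP true S3.n &&
      rkF rb0 rt0 prev next b eR eL LN LP false S3.z &&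
      rkF rb1 rt1 prev next b eR eL LN LP true S3.z

/-- ranks of all the boxes of a column; `EN`, `EP`: segments of the next and previous column which
are not yet passed -/
def rkCol (rb0 rb1 rt0 rt1 : ℕ) : Option Box → List Box → List Seg → List Seg → List Seg →
    List Seg → Bool
  | prev, b :: bs, eR :: ER, eL :: EL, EN, EP =>
      let DN := EN.dropWhile (fun e => ltZ e.hi eR.lo)
      let DP := EP.dropWhile (fun e => ltZ e.hi eL.lo)
      rkBox rb0 rb1 rt0 rt1 prev bs.head? b eR eL (DN.takeWhile (fun e => leZ e.lo eR.hi))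
        (DP.takeWhile (fun e => leZ e.lo eL.hi)) &&
      rkCol rb0 rb1 rt0 rt1 (some b) bs ER EL DN DP
  | _, [], _, _, _, _ => true
  | _, _, _, _, _, _ => false

/-- the common ray of two columns -/
def chainF (s : ℤ × ℤ) (x y x' y' : ℤ) : Bool :=
  decide (s.1 * x = s.2 * x') && decide (s.1 * y = s.2 * y') && ltZ 0 s.1 && ltZ 0 s.2

/-- conditions for a column `c` with its neighbours `p` (left) and `q` (right) -/
def chk3 (g : Gl) (p c q : Column) : Bool :=
  let s := c.scal q
  let s' := p.scal c
  let ER := segsF g c c.b s.1 true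
  let EN := segsF g q q.a s.2 false
  let EL := segsF g c c.a s'.2 false
  let EP := segsF g p p.b s'.1 true
  chainF s (c.ch.vxZ c.b) (c.ch.vyZ c.b) (q.ch.vxZ q.a) (q.ch.vyZ q.a) && glueF g ER EN &&
  ltZ 0 s'.1 && ltZ 0 s'.2 && rkCol c.rb0 c.rb1 c.rt0 c.rt1 none c.bx ER EL EN EP

/-- conditions for the first column `c` (right neighbour `q`, last column `z`) -/
def chkFirst (g : Gl) (z c q : Column) : Bool :=
  let s := c.scal q
  let s' := z.scalS c
  let ER := segsF g c c.b s.1 true
  let EN := segsF g q q.a s.2 false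
  let EL := segsF g c c.a s'.2 false
  let EP := flipF (segsF g z z.b s'.1 true)
  chainF s (c.ch.vxZ c.b) (c.ch.vyZ c.b) (q.ch.vxZ q.a) (q.ch.vyZ q.a) && glueF g ER EN &&
  decide (c.ch.vyZ c.a = 0) && ltZ (c.ch.vxZ c.a) 0 && ltZ 0 s'.1 && ltZ 0 s'.2 &&
  rkCol c.rb0 c.rb1 c.rt0 c.rt1 none c.bx ER EL EN EP

/-- conditions for the last column `c` (left neighbour `p`, first column `f`) -/
def chkLast (g : Gl) (p c f : Column) : Bool :=
  let s := c.scalS f
  let s' := p.scal c
  let ER := segsF g c c.b s.1 true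
  let EN := flipF (segsF g f f.a s.2 false)
  let EL := segsF g c c.a s'.2 false
  let EP := segsF g p p.b s'.1 true
  glueF g ER EN && decide (c.ch.vyZ c.b = 0) && ltZ 0 (c.ch.vxZ c.b) && ltZ 0 s.1 && ltZ 0 s.2 &&
  ltZ 0 s'.1 && ltZ 0 s'.2 &&
  rkCol c.rb0 c.rb1 c.rt0 c.rt1 none c.bx ER EL EN EP

/-- all the columns of the list but the last one; `p` = column before the list -/
def chkAll (g : Gl) : Column → List Column → Bool
  | p, c :: q :: L => chk3 g p c q && chkAll g c (q :: L)
  | _, _ => true

/-- vertical neighbours -/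
def vertF (g : Gl) : List Box → Bool
  | b :: b' :: L => eqZ b.hi b'.lo && (b.sh == b'.sl) && eqZ (regF g b b.sh) (regF g b' b.sh) &&
      vertF g (b' :: L)
  | _ => true

/-- conditions for one column -/
def colC (g : Gl) (c : Column) : Bool :=
  ltZ 0 c.R && ltZ 0 c.ch.al && ltZ 0 (c.ch.x1 * c.ch.y0 - c.ch.x0 * c.ch.y1) &&
  leZ 0 (c.ch.vyZ c.a) && leZ 0 (c.ch.vyZ c.b) &&
  c.bx.all (fun b => ltZ 0 b.s && Nat.ble b.lab.natAbs g.par.length &&
    (Nat.beq b.ty 0 || !(eqZ b.lab 0))) &&
  vertF g c.bx &&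
  (match c.bx.head? with
    | none => false
    | some b => (b.sl == g.sp) && eqZ (regF g b g.sp) (negZ g.pl) &&
      (Nat.beq c.rb0 0 || Nat.blt g.rp1 c.rb0 || Nat.blt (b.rk false (S3.of g.sp)) c.rb0) &&
      (Nat.beq c.rb1 0 || Nat.blt g.rp0 c.rb1 || Nat.blt (b.rk true (S3.of g.sp)) c.rb1)) &&
  (match c.bx.getLast? with
    | none => false
    | some b => (b.sh == g.sp) && eqZ (regF g b g.sp) g.pl &&
      (Nat.beq c.rt0 0 || Nat.blt g.rp0 c.rt0 || Nat.blt (b.rk false (S3.of g.sp)) c.rt0) &&
      (Nat.beq c.rt1 0 || Nat.blt g.rp1 c.rt1 || Nat.blt (b.rk true (S3.of g.sp)) c.rt1))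

/-! ### roots -/

/-- one possible root -/
def rt1 (g : Gl) (i j : ℕ) (b : Box) (l : Bool) (s : S3) (acc : List (Cell × S3 × ℤ)) :
    List (Cell × S3 × ℤ) :=
  if Nat.beq (b.rk l s) 0 then (Cell.box l i j, s, ls l (blF g b s)) :: acc else acc

def rootsBox (g : Gl) (i j : ℕ) (b : Box) (acc : List (Cell × S3 × ℤ)) : List (Cell × S3 × ℤ) :=
  match b.ty with
  | 0 => rt1 g i j b false (S3.of b.sl) (rt1 g i j b true (S3.of b.sl) acc)
  | _ => rt1 g i j b false S3.p (rt1 g i j b true S3.p (rt1 g i j b false S3.n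
      (rt1 g i j b true S3.n (rt1 g i j b false S3.z (rt1 g i j b true S3.z acc)))))

def rootsBs (g : Gl) (i : ℕ) : ℕ → List Box → List (Cell × S3 × ℤ)
  | _, [] => []
  | j, b :: bs => rootsBox g i j b (rootsBs g i (j + 1) bs)

def rootsC (g : Gl) (i : ℕ) (c : Column) : List (Cell × S3 × ℤ) :=
  (if Nat.beq c.rt0 0 then [(Cell.top false i, S3.of g.sp, g.pl)] else []) ++
  (if Nat.beq c.rt1 0 then [(Cell.top true i, S3.of g.sp, negZ g.pl)] else []) ++
  (if Nat.beq c.rb0 0 then [(Cell.bot false i, S3.of g.sp, negZ g.pl)] else []) ++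
  (if Nat.beq c.rb1 0 then [(Cell.bot true i, S3.of g.sp, g.pl)] else []) ++ rootsBs g i 0 c.bx

/-- all the parts of rank zero of a list of columns; `i`: index of the first column -/
def rootsL (g : Gl) : ℕ → List Column → List (Cell × S3 × ℤ)
  | _, [] => []
  | i, c :: L => rootsC g i c ++ rootsL g (i + 1) L

def rootsP (g : Gl) : List (Cell × S3 × ℤ) :=
  (if Nat.beq g.rp0 0 then [(Cell.pole false, S3.of g.sp, g.pl)] else []) ++
  (if Nat.beq g.rp1 0 then [(Cell.pole true, S3.of g.sp, negZ g.pl)] else [])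

/-- key of a root -/
def keyR (r : Cell × S3 × ℤ) : Bool × ℤ := (decide (r.2.1 = S3.z), r.2.2)

/-- different keys, and one root for every oval of the sphere -/
def rootsOK (g : Gl) (R : List (Cell × S3 × ℤ)) : Bool :=
  decide ((R.map keyR).Nodup) &&
  (List.range g.par.length).all (fun n =>
    R.any (fun r => decide (r.2.1 = S3.z ∧ r.2.2 = ((n + 1 : ℕ) : ℤ))) &&
    R.any (fun r => decide (r.2.1 = S3.z ∧ r.2.2 = -((n + 1 : ℕ) : ℤ))))

/-- rank of the poles (`C`: some columns) -/
def poleF (g : Gl) (C : List Column) : Bool :=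
  (Nat.beq g.rp0 0 || C.any (fun c => Nat.blt c.rt0 g.rp0 || Nat.blt c.rb1 g.rp0)) &&
  (Nat.beq g.rp1 0 || C.any (fun c => Nat.blt c.rt1 g.rp1 || Nat.blt c.rb0 g.rp1))

/-- the certificate with the global data `g` and the columns `L` -/
def certOf (g : Gl) (L : List Column) : Cert :=
  { cols := L, par := g.par, pl := g.pl, s0 := g.s0, rp0 := g.rp0, rp1 := g.rp1 }

end Oct
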