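import Mathlib

set_option autoImplicit false

/-!
# Arrangements of ovals of real plane curves: definitions and certificates

Part 1: the statement (real projective plane, ovals with interior, arrangements).
Part 2: certificates: columns of boxes along a pencil of lines.
Part 3: the analytic conditions of a certificate (strict polynomial inequalities on compact boxes).
-/

open MvPolynomial Set

namespace Oct

/-! ## Part 1: the statement -/

/-- nonzero vectors of `ℝ³` -/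
abbrev V3 : Type := {v : Fin 3 → ℝ // v ≠ 0}

/-- the real projective plane -/
abbrev RP2 : Type := Projectivization ℝ (Fin 3 → ℝ)

/-- the point of the projective plane given by a nonzero vector -/
noncomputable def toP (v : V3) : RP2 := Projectivization.mk ℝ v.1 v.2

/-- the quotient topology -/
noncomputable instance : TopologicalSpace RP2 := TopologicalSpace.coinduced toP inferInstance

/-- the real part of the curve `F = 0` -/
def realPart (F : MvPolynomial (Fin 3) ℝ) : Set RP2 := {P | eval P.rep F = 0}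

/-- no common zero of `F` and its partial derivatives in `ℂ³ \ 0` -/
def Nonsingular (F : MvPolynomial (Fin 3) ℝ) : Prop :=
  ∀ x : Fin 3 → ℂ, x ≠ 0 → ¬ (aeval x F = 0 ∧ ∀ i, aeval x (pderiv i F) = 0)

/-- `O` is an oval with interior `D`: both are connected, `O` closed, `D` open, the rest
(the exterior) is open and connected, and the exterior, but not the interior, has a connected
preimage in `ℝ³ \ 0` (equivalently in the sphere). -/
structure IsOval (O D : Set RP2) : Prop where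
  isClosed : IsClosed O
  conn : IsConnected O
  intOpen : IsOpen D
  intConn : IsConnected D
  disj : Disjoint O D
  extOpen : IsOpen (O ∪ D)ᶜ
  extConn : IsConnected (O ∪ D)ᶜ
  intLift : ¬ IsPreconnected (toP ⁻¹' D)
  extLift : IsPreconnected (toP ⁻¹' (O ∪ D)ᶜ)

/-- The real part of `F` is the disjoint union of `m` ovals, and oval number `j` lies in the
interior of oval number `i` if and only if `nest i j`. -/
def HasArrangement (F : MvPolynomial (Fin 3) ℝ) (m : ℕ) (nest : Fin m → Fin m → Prop) : Prop :=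
  ∃ O D : Fin m → Set RP2, (∀ i, IsOval (O i) (D i)) ∧ (∀ i j, i ≠ j → Disjoint (O i) (O j)) ∧
    (⋃ i, O i) = realPart F ∧ ∀ i j, O j ⊆ D i ↔ nest i j

/-! ## Part 2: certificates -/

/-- chart `(t,u) ↦ (x0 + x1 t, y0 + y1 t, al u + b0 + b1 t + b2 t²)` -/
structure Chart where
  x0 : ℤ
  x1 : ℤ
  y0 : ℤ
  y1 : ℤ
  al : ℤ
  b0 : ℤ
  b1 : ℤ
  b2 : ℤ
deriving DecidableEq

/-- a box `[c - s, c + s]` in the coordinate `u`.
`ty = 0`: sign-definite; `ty = 1`: monotone in `u`, opposite signs below and above;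
`ty = 2`: fold which opens to the right; `ty = 3`: fold which opens to the left.
`sl`, `sh`: sign of `F` on the lower and the upper side (`true` = positive).
`lab`: label of the region (`ty = 0`) or of the oval (`ty > 0`).
`rk`: ranks, for the two lifts to the sphere, of the positive part, negative part, zero set. -/
structure Box where
  c : ℤ
  s : ℤ
  ty : ℕ
  sl : Bool
  sh : Bool
  lab : ℤ
  rp0 : ℕ
  rn0 : ℕ
  rz0 : ℕ
  rp1 : ℕ
  rn1 : ℕ
  rz1 : ℕ
deriving DecidableEq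

def Box.lo (b : Box) : ℤ := b.c - b.s
def Box.hi (b : Box) : ℤ := b.c + b.s

/-- a column: `t ∈ [X - R, X + R]`, boxes from below to above, and the ranks of the unbounded
cells (top and bottom, two lifts) -/
structure Column where
  ch : Chart
  X : ℤ
  R : ℤ
  bx : List Box
  rt0 : ℕ
  rt1 : ℕ
  rb0 : ℕ
  rb1 : ℕ
deriving DecidableEq

def Column.a (c : Column) : ℤ := c.X - c.R
def Column.b (c : Column) : ℤ := c.X + c.R
/-- lowest level -/
def Column.L (c : Column) : ℤ := match c.bx.head? with | some b => b.lo | none => 0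
/-- highest level -/
def Column.H (c : Column) : ℤ := match c.bx.getLast? with | some b => b.hi | none => 0

/-- certificate: columns in the order of the pencil, parents of the ovals `1..m` (`0` = outermost;
`up` is the list of the parents, `par[i-1]` is the parent of oval `i`), label of the region of the
pole `(0:0:1)`, sign of `F` on the outermost region, ranks of the poles -/
structure Cert where
  cols : List Column
  par : List ℕ
  pl : ℤ
  s0 : Bool
  rp0 : ℕ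
  rp1 : ℕ

/-! ### geometry -/

noncomputable def sg (b : Bool) : ℝ := if b then 1 else -1

noncomputable def Chart.vx (c : Chart) (t : ℝ) : ℝ := c.x0 + c.x1 * t
noncomputable def Chart.vy (c : Chart) (t : ℝ) : ℝ := c.y0 + c.y1 * t
noncomputable def Chart.be (c : Chart) (t : ℝ) : ℝ := c.b0 + c.b1 * t + c.b2 * t ^ 2
/-- the chart as a map to `ℝ³` -/
noncomputable def Chart.pt (c : Chart) (t u : ℝ) : Fin 3 → ℝ := ![c.vx t, c.vy t, c.al * u + c.be t]

/-- `±(0,0,1)` -/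
noncomputable def pole (e : Bool) : Fin 3 → ℝ := ![0, 0, sg (!e)]

/-! ## Part 3: analytic conditions -/

/-- pull back by the chart -/
noncomputable def Chart.pull (c : Chart) (F : MvPolynomial (Fin 3) ℝ) : MvPolynomial (Fin 2) ℝ :=
  aeval ![C (c.x0 : ℝ) + C (c.x1 : ℝ) * X 0, C (c.y0 : ℝ) + C (c.y1 : ℝ) * X 0,
    C (c.al : ℝ) * X 1 + C (c.b0 : ℝ) + C (c.b1 : ℝ) * X 0 + C (c.b2 : ℝ) * X 0 ^ 2] F

/-- pull back by `(t,s) ↦ s • pt t h + (1 - s) • (0,0,σ)` -/
noncomputable def Chart.pullEnd (c : Chart) (h : ℤ) (σ : Bool) (F : MvPolynomial (Fin 3) ℝ) :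
    MvPolynomial (Fin 2) ℝ :=
  aeval ![X 1 * (C (c.x0 : ℝ) + C (c.x1 : ℝ) * X 0), X 1 * (C (c.y0 : ℝ) + C (c.y1 : ℝ) * X 0),
    X 1 * (C (c.al * h + c.b0 : ℝ) + C (c.b1 : ℝ) * X 0 + C (c.b2 : ℝ) * X 0 ^ 2)
      + C (sg σ) * (1 - X 1)] F

/-- the polynomial `P` is positive on the box -/
def PosOn (P : MvPolynomial (Fin 2) ℝ) (a b c d : ℝ) : Prop :=
  ∀ t ∈ Icc a b, ∀ u ∈ Icc c d, 0 < eval ![t, u] P

/-- analytic conditions for a box of a column -/
def BoxOK (F : MvPolynomial (Fin 3) ℝ) (col : Column) (b : Box) : Prop :=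
  PosOn (C (sg b.sl) * col.ch.pull F) col.a col.b b.lo b.lo ∧
  PosOn (C (sg b.sh) * col.ch.pull F) col.a col.b b.hi b.hi ∧
  ((b.ty = 0 ∧ b.sl = b.sh ∧ PosOn (C (sg b.sl) * col.ch.pull F) col.a col.b b.lo b.hi) ∨
   (b.ty = 1 ∧ b.sl = !b.sh ∧
      PosOn (C (sg b.sh) * pderiv 1 (col.ch.pull F)) col.a col.b b.lo b.hi) ∨
   (b.ty = 2 ∧ b.sl = b.sh ∧
      PosOn (C (sg b.sl) * col.ch.pull F) col.a col.a b.lo b.hi ∧
      PosOn (C (-sg b.sl) * pderiv 0 (col.ch.pull F)) col.a col.b b.lo b.hi ∧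
      PosOn (C (sg b.sl) * pderiv 1 (pderiv 1 (col.ch.pull F))) col.b col.b b.lo b.hi ∧
      PosOn (C (-sg b.sl) * col.ch.pull F) col.b col.b b.c b.c) ∨
   (b.ty = 3 ∧ b.sl = b.sh ∧
      PosOn (C (sg b.sl) * col.ch.pull F) col.b col.b b.lo b.hi ∧
      PosOn (C (sg b.sl) * pderiv 0 (col.ch.pull F)) col.a col.b b.lo b.hi ∧
      PosOn (C (sg b.sl) * pderiv 1 (pderiv 1 (col.ch.pull F))) col.a col.a b.lo b.hi ∧
      PosOn (C (-sg b.sl) * col.ch.pull F) col.a col.a b.c b.c))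

/-- analytic conditions for a column; `sp` is the sign of `F` at the pole -/
def ColOK (F : MvPolynomial (Fin 3) ℝ) (sp : Bool) (col : Column) : Prop :=
  PosOn (C (sg sp) * col.ch.pullEnd col.H true F) col.a col.b 0 1 ∧
  PosOn (C (sg sp) * col.ch.pullEnd col.L false F) col.a col.b 0 1 ∧
  ∀ b ∈ col.bx, BoxOK F col b

/-- all the analytic conditions of a certificate -/
def AnaOK (F : MvPolynomial (Fin 3) ℝ) (sp : Bool) (cols : List Column) : Prop :=
  ∀ col ∈ cols, ColOK F sp col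

/-! ## Part 4: combinatorial conditions -/

/-- parent label: `up par i = par[i-1]` for `1 ≤ i`, odd function -/
def up (par : List ℕ) (i : ℤ) : ℤ :=
  match i with
  | Int.ofNat 0 => 0
  | Int.ofNat (n + 1) => ((par.getD n 0 : ℕ) : ℤ)
  | Int.negSucc n => -((par.getD n 0 : ℕ) : ℤ)

/-- sign of the region `n` (`n = |label|`), by iteration of the parent map; `fuel` = depth -/
def sgnFuel (par : List ℕ) (s0 : Bool) : ℕ → ℕ → Bool
  | 0, _ => s0
  | _ + 1, 0 => s0
  | k + 1, n + 1 => !(sgnFuel par s0 k (par.getD n 0))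

/-- sign of `F` on the region with label `i` -/
def sgnR (par : List ℕ) (s0 : Bool) (i : ℤ) : Bool := sgnFuel par s0 (i.natAbs + 1) i.natAbs

/-- label of the positive (`s = true`) or negative part of a box (lift 0) -/
def regLab (par : List ℕ) (s0 : Bool) (b : Box) (s : Bool) : ℤ :=
  if b.ty = 0 then b.lab else if sgnR par s0 b.lab == s then b.lab else up par b.lab

/-- a segment of a common ray: `[lo,hi]` heights; `df`: sign-definite (sign `sl`);
`mo`: strictly monotone; `sl`, `sh` signs at the ends; labels of the positive, negative part, zero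
set; ranks in the two lifts -/
structure Seg where
  lo : ℤ
  hi : ℤ
  df : Bool
  mo : Bool
  sl : Bool
  sh : Bool
  lp : ℤ
  ln : ℤ
  lz : ℤ
  rp0 : ℕ
  rn0 : ℕ
  rz0 : ℕ
  rp1 : ℕ
  rn1 : ℕ
  rz1 : ℕ

def Chart.beZ (c : Chart) (t : ℤ) : ℤ := c.b0 + c.b1 * t + c.b2 * t ^ 2
def Chart.vxZ (c : Chart) (t : ℤ) : ℤ := c.x0 + c.x1 * t
def Chart.vyZ (c : Chart) (t : ℤ) : ℤ := c.y0 + c.y1 * t

/-- segments of the boxes of a column on the side `t` (`right = true`: `t = b`), heights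
multiplied by `m` -/
def segOf (par : List ℕ) (s0 : Bool) (ch : Chart) (be m : ℤ) (right : Bool) (b : Box) : Seg :=
  { lo := m * (ch.al * b.lo + be), hi := m * (ch.al * b.hi + be)
    df := b.ty == 0 || (if right then b.ty == 3 else b.ty == 2)
    mo := b.ty == 1
    sl := b.sl, sh := b.sh
    lp := regLab par s0 b true, ln := regLab par s0 b false, lz := b.lab
    rp0 := b.rp0, rn0 := b.rn0, rz0 := b.rz0, rp1 := b.rp1, rn1 := b.rn1, rz1 := b.rz1 }

/-- the antipodal segment, seen from the other side -/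
def Seg.flip (e : Seg) : Seg :=
  { lo := -e.hi, hi := -e.lo, df := e.df, mo := e.mo, sl := e.sh, sh := e.sl
    lp := -e.lp, ln := -e.ln, lz := -e.lz
    rp0 := e.rp1, rn0 := e.rn1, rz0 := e.rz1, rp1 := e.rp0, rn1 := e.rn0, rz1 := e.rz0 }

/-- signs: positive, negative, zero -/
inductive S3
  | p
  | n
  | z
deriving DecidableEq

/-- sign as an element of `S3` -/
def S3.of (b : Bool) : S3 := if b then S3.p else S3.n

def S3.Has (s : S3) (r : ℝ) : Prop :=
  match s with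
  | S3.p => 0 < r
  | S3.n => r < 0
  | S3.z => r = 0

def Seg.lb (e : Seg) (s : S3) : ℤ :=
  match s with
  | S3.p => e.lp
  | S3.n => e.ln
  | S3.z => e.lz

/-- rank in the lift `l` (`false` = lift 0) -/
def Seg.rk (e : Seg) (l : Bool) (s : S3) : ℕ :=
  match l, s with
  | false, S3.p => e.rp0
  | false, S3.n => e.rn0
  | false, S3.z => e.rz0
  | true, S3.p => e.rp1
  | true, S3.n => e.rn1
  | true, S3.z => e.rz1

/-- which signs occur on the intersection of two segments of the same ray; `none`: not decided -/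
def pres (e e' : Seg) : Option (Bool × Bool × Bool) :=
  if min e.hi e'.hi < max e.lo e'.lo then some (false, false, false)
  else if e.df then some (e.sl, !e.sl, false)
  else if e'.df then some (e'.sl, !e'.sl, false)
  else if e.mo || e'.mo then
    let s1 := if e'.lo ≤ e.lo then e.sl else e'.sl
    let s2 := if e.hi ≤ e'.hi then e.sh else e'.sh
    if s1 == s2 then some (s1, !s1, false) else some (true, true, true)
  else none

/-- `s` occurs on the intersection -/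
def Pres (e e' : Seg) (s : S3) : Prop :=
  ∃ p n z, pres e e' = some (p, n, z) ∧
    match s with
    | S3.p => p = true
    | S3.n => n = true
    | S3.z => z = true

/-- side of a column: heights of the lowest and highest levels, segments, ranks of the unbounded
cells (top: lifts 0, 1; bottom: lifts 0, 1) -/
structure Edge where
  lo : ℤ
  hi : ℤ
  segs : List Seg
  rt0 : ℕ
  rt1 : ℕ
  rb0 : ℕ
  rb1 : ℕ

def Edge.flip (E : Edge) : Edge :=
  { lo := -E.hi, hi := -E.lo, segs := (E.segs.map Seg.flip).reverse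
    rt0 := E.rb1, rt1 := E.rb0, rb0 := E.rt1, rb1 := E.rt0 }

def Edge.rt (E : Edge) (l : Bool) : ℕ := if l then E.rt1 else E.rt0
def Edge.rb (E : Edge) (l : Bool) : ℕ := if l then E.rb1 else E.rb0

/-- the side `t` of the column, heights multiplied by `m` -/
def edgeOf (par : List ℕ) (s0 : Bool) (c : Column) (t m : ℤ) (right : Bool) : Edge :=
  { lo := m * (c.ch.al * c.L + c.ch.beZ t), hi := m * (c.ch.al * c.H + c.ch.beZ t)
    segs := c.bx.map (segOf par s0 c.ch (c.ch.beZ t) m right)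
    rt0 := c.rt0, rt1 := c.rt1, rb0 := c.rb0, rb1 := c.rb1 }

/-- scaling factors `(m, m')` with `m • (x,y) = m' • (x',y')` -/
def scal (x y x' y' : ℤ) : ℤ × ℤ :=
  if x = x' ∧ y = y' then (1, 1) else ((x'.natAbs + y'.natAbs : ℕ), (x.natAbs + y.natAbs : ℕ))

def Column.scal (c c' : Column) : ℤ × ℤ :=
  Oct.scal (c.ch.vxZ c.b) (c.ch.vyZ c.b) (c'.ch.vxZ c'.a) (c'.ch.vyZ c'.a)

/-- scaling at the seam: last column and antipode of the first column -/
def Column.scalS (c c' : Column) : ℤ × ℤ :=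
  Oct.scal (c.ch.vxZ c.b) (c.ch.vyZ c.b) (-c'.ch.vxZ c'.a) (-c'.ch.vyZ c'.a)

def Cert.m (ct : Cert) : ℕ := ct.par.length
/-- sign of `F` at the poles -/
def Cert.sp (ct : Cert) : Bool := sgnR ct.par ct.s0 ct.pl

/-- default column -/
def col0 : Column := ⟨⟨0, 0, 0, 0, 0, 0, 0, 0⟩, 0, 0, [], 0, 0, 0, 0⟩

def Cert.col (ct : Cert) (i : ℕ) : Column := ct.cols.getD i col0
def Cert.n (ct : Cert) : ℕ := ct.cols.length

/-- right side of column `i`, scaled for the comparison with the next column -/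
def Cert.eR (ct : Cert) (i : ℕ) : Edge :=
  if i + 1 < ct.n then
    edgeOf ct.par ct.s0 (ct.col i) (ct.col i).b ((ct.col i).scal (ct.col (i + 1))).1 true
  else edgeOf ct.par ct.s0 (ct.col i) (ct.col i).b ((ct.col i).scalS (ct.col 0)).1 true

/-- left side of column `i`, scaled for the comparison with the previous column -/
def Cert.eL (ct : Cert) (i : ℕ) : Edge :=
  match i with
  | 0 => edgeOf ct.par ct.s0 (ct.col 0) (ct.col 0).a ((ct.col (ct.n - 1)).scalS (ct.col 0)).2 false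
  | i + 1 => edgeOf ct.par ct.s0 (ct.col (i + 1)) (ct.col (i + 1)).a
      ((ct.col i).scal (ct.col (i + 1))).2 false

/-- side of the next column -/
def Cert.eN (ct : Cert) (i : ℕ) : Edge := if i + 1 < ct.n then ct.eL (i + 1) else (ct.eL 0).flip

/-- side of the previous column -/
def Cert.eP (ct : Cert) (i : ℕ) : Edge :=
  match i with
  | 0 => (ct.eR (ct.n - 1)).flip
  | i + 1 => ct.eR i

/-- the two sides of a common ray fit together (`E` left, `E'` right) -/
structure EdgeGlue (sp : Bool) (pl : ℤ) (E E' : Edge) : Prop where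
  segs : ∀ e ∈ E.segs, ∀ e' ∈ E'.segs, pres e e' ≠ none ∧ ∀ s, Pres e e' s → e.lb s = e'.lb s
  lt : E.lo < E'.hi
  lt' : E'.lo < E.hi
  top : ∀ e' ∈ E'.segs, E.hi ≤ e'.hi → e'.lb (S3.of sp) = pl
  top' : ∀ e ∈ E.segs, E'.hi ≤ e.hi → e.lb (S3.of sp) = pl
  bot : ∀ e' ∈ E'.segs, e'.lo ≤ E.lo → e'.lb (S3.of sp) = -pl
  bot' : ∀ e ∈ E.segs, e.lo ≤ E'.lo → e.lb (S3.of sp) = -pl

/-- the part `s` of a box is not empty -/
def Box.Act (b : Box) (s : S3) : Prop := b.ty = 0 → s = S3.of b.sl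

def Box.rk (b : Box) (l : Bool) (s : S3) : ℕ :=
  match l, s with
  | false, S3.p => b.rp0
  | false, S3.n => b.rn0
  | false, S3.z => b.rz0
  | true, S3.p => b.rp1
  | true, S3.n => b.rn1
  | true, S3.z => b.rz1

def Column.rt (c : Column) (l : Bool) : ℕ := if l then c.rt1 else c.rt0
def Column.rb (c : Column) (l : Bool) : ℕ := if l then c.rb1 else c.rb0

/-- label of the part `s` of a box (lift 0) -/
def Cert.bl (ct : Cert) (b : Box) (s : S3) : ℤ :=
  match s with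
  | S3.p => regLab ct.par ct.s0 b true
  | S3.n => regLab ct.par ct.s0 b false
  | S3.z => b.lab

/-- sign of the lift -/
def ls (l : Bool) (i : ℤ) : ℤ := if l then -i else i

/-- some neighbour on the side (own segment `e`, other side `E'`, `e` is to the left if `lft`)
has rank `< r` for the lift `l` and the sign `s` -/
def SideNb (sp lft : Bool) (e : Seg) (E' : Edge) (l : Bool) (s : S3) (r : ℕ) : Prop :=
  (∃ e' ∈ E'.segs, (if lft then Pres e e' s else Pres e' e s) ∧ e'.rk l s < r) ∨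
  (s = S3.of sp ∧ E'.hi ≤ e.hi ∧ E'.rt l < r) ∨ (s = S3.of sp ∧ e.lo ≤ E'.lo ∧ E'.rb l < r)

/-- default box -/
def box0 : Box := ⟨0, 0, 0, true, true, 0, 0, 0, 0, 0, 0, 0⟩

def Column.box (c : Column) (j : ℕ) : Box := c.bx.getD j box0

/-- rank condition for the part `s`, lift `l`, of the box `j` of the column `i` -/
def Cert.BoxRank (ct : Cert) (i j : ℕ) (l : Bool) (s : S3) : Prop :=
  let c := ct.col i
  let b := c.box j
  let r := b.rk l s
  r = 0 ∨
  (s = S3.of b.sl ∧ ((j = 0 ∧ c.rb l < r) ∨ (∃ k, j = k + 1 ∧ (c.box k).rk l s < r))) ∨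
  (s = S3.of b.sh ∧ ((j + 1 = c.bx.length ∧ c.rt l < r) ∨
    (j + 1 < c.bx.length ∧ (c.box (j + 1)).rk l s < r))) ∨
  SideNb ct.sp true (segOf ct.par ct.s0 c.ch (c.ch.beZ c.b)
    (if i + 1 < ct.n then (c.scal (ct.col (i + 1))).1 else (c.scalS (ct.col 0)).1) true b)
    (ct.eN i) l s r ∨
  SideNb ct.sp false (segOf ct.par ct.s0 c.ch (c.ch.beZ c.a)
    (if i = 0 then ((ct.col (ct.n - 1)).scalS c).2 else ((ct.col (i - 1)).scal c).2) false b)
    (ct.eP i) l s r

/-- cells on the sphere (`l`: lift, `i`: column, `j`: box) -/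
inductive Cell
  | box (l : Bool) (i j : ℕ)
  | top (l : Bool) (i : ℕ)
  | bot (l : Bool) (i : ℕ)
  | pole (l : Bool)
deriving DecidableEq

/-- the antipodal cell -/
def Cell.inv (c : Cell) : Cell :=
  match c with
  | Cell.box l i j => Cell.box (!l) i j
  | Cell.top l i => Cell.top (!l) i
  | Cell.bot l i => Cell.bot (!l) i
  | Cell.pole l => Cell.pole (!l)

def Cert.Valid (ct : Cert) (c : Cell) : Prop :=
  match c with
  | Cell.box _ i j => i < ct.n ∧ j < (ct.col i).bx.length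
  | Cell.top _ i => i < ct.n
  | Cell.bot _ i => i < ct.n
  | Cell.pole _ => True

/-- label of the part `s` of a cell -/
def Cert.clab (ct : Cert) (c : Cell) (s : S3) : ℤ :=
  match c with
  | Cell.box l i j => ls l (ct.bl ((ct.col i).box j) s)
  | Cell.top l _ => ls l ct.pl
  | Cell.bot l _ => ls l (-ct.pl)
  | Cell.pole l => ls l ct.pl

/-- rank of the part `s` of a cell -/
def Cert.crk (ct : Cert) (c : Cell) (s : S3) : ℕ :=
  match c with
  | Cell.box l i j => ((ct.col i).box j).rk l s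
  | Cell.top l i => (ct.col i).rt l
  | Cell.bot l i => (ct.col i).rb l
  | Cell.pole l => if l then ct.rp1 else ct.rp0

/-- the part `s` of the cell is not empty -/
def Cert.Act (ct : Cert) (c : Cell) (s : S3) : Prop :=
  match c with
  | Cell.box _ i j => ((ct.col i).box j).Act s
  | _ => s = S3.of ct.sp

/-- the combinatorial conditions of a certificate -/
structure Comb (ct : Cert) : Prop where
  pos_n : 0 < ct.n
  pos_m : 0 < ct.m
  colR : ∀ c ∈ ct.cols, 0 < c.R ∧ 0 < c.ch.al ∧ 0 < c.ch.x1 * c.ch.y0 - c.ch.x0 * c.ch.y1 ∧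
    0 ≤ c.ch.vyZ c.a ∧ 0 ≤ c.ch.vyZ c.b ∧ c.bx ≠ []
  boxS : ∀ c ∈ ct.cols, ∀ b ∈ c.bx, 0 < b.s
  /-- directions -/
  first : (ct.col 0).ch.vyZ (ct.col 0).a = 0 ∧ (ct.col 0).ch.vxZ (ct.col 0).a < 0
  last : (ct.col (ct.n - 1)).ch.vyZ (ct.col (ct.n - 1)).b = 0 ∧
    0 < (ct.col (ct.n - 1)).ch.vxZ (ct.col (ct.n - 1)).b
  chain : ∀ i, i + 1 < ct.n →
    ((ct.col i).scal (ct.col (i + 1))).1 * (ct.col i).ch.vxZ (ct.col i).b =
      ((ct.col i).scal (ct.col (i + 1))).2 * (ct.col (i + 1)).ch.vxZ (ct.col (i + 1)).a ∧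
    ((ct.col i).scal (ct.col (i + 1))).1 * (ct.col i).ch.vyZ (ct.col i).b =
      ((ct.col i).scal (ct.col (i + 1))).2 * (ct.col (i + 1)).ch.vyZ (ct.col (i + 1)).a
  /-- vertical neighbours -/
  vert : ∀ c ∈ ct.cols, ∀ j, j + 1 < c.bx.length → (c.box j).hi = (c.box (j + 1)).lo ∧
    (c.box j).sh = (c.box (j + 1)).sl ∧
    ct.bl (c.box j) (S3.of (c.box j).sh) = ct.bl (c.box (j + 1)) (S3.of (c.box j).sh)
  top : ∀ c ∈ ct.cols, (c.box (c.bx.length - 1)).sh = ct.sp ∧
    ct.bl (c.box (c.bx.length - 1)) (S3.of ct.sp) = ct.pl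
  bot : ∀ c ∈ ct.cols, (c.box 0).sl = ct.sp ∧ ct.bl (c.box 0) (S3.of ct.sp) = -ct.pl
  /-- horizontal neighbours -/
  glue : ∀ i < ct.n, EdgeGlue ct.sp ct.pl (ct.eR i) (ct.eN i)
  /-- ranks -/
  rankB : ∀ i < ct.n, ∀ j < (ct.col i).bx.length, ∀ l s, ((ct.col i).box j).Act s →
    ct.BoxRank i j l s
  rankT : ∀ i < ct.n, ∀ l, (ct.col i).rt l = 0 ∨ (if l then ct.rp1 else ct.rp0) < (ct.col i).rt l ∨
    ((ct.col i).box ((ct.col i).bx.length - 1)).rk l (S3.of ct.sp) < (ct.col i).rt l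
  rankBo : ∀ i < ct.n, ∀ l, (ct.col i).rb l = 0 ∨
    (if l then ct.rp0 else ct.rp1) < (ct.col i).rb l ∨
    ((ct.col i).box 0).rk l (S3.of ct.sp) < (ct.col i).rb l
  rankP : ∀ l, (if l then ct.rp1 else ct.rp0) = 0 ∨ ∃ i < ct.n,
    (ct.col i).rt l < (if l then ct.rp1 else ct.rp0) ∨
    (ct.col i).rb (!l) < (if l then ct.rp1 else ct.rp0)
  /-- labels -/
  lab0 : ∀ c ∈ ct.cols, ∀ b ∈ c.bx, b.lab.natAbs ≤ ct.m ∧ (b.ty ≠ 0 → b.lab ≠ 0)
  labp : ct.pl.natAbs ≤ ct.m
  tree : ∀ i < ct.m, ct.par.getD i 0 ≤ i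
  /-- roots: one for every region and every oval of the sphere -/
  root : ∀ c c' s s', ct.Valid c → ct.Valid c' → ct.Act c s → ct.Act c' s' →
    ct.crk c s = 0 → ct.crk c' s' = 0 → (s = S3.z ↔ s' = S3.z) → ct.clab c s = ct.clab c' s' →
    c = c' ∧ s = s'
  all : ∀ o : ℤ, o ≠ 0 → o.natAbs ≤ ct.m → ∃ c, ct.Valid c ∧ ct.Act c S3.z ∧ ct.clab c S3.z = o

/-! ### the cells as subsets of `ℝ³ \ 0` -/

/-- antipode -/
def negV (v : V3) : V3 := ⟨-v.1, neg_ne_zero.2 v.2⟩

/-- positive multiples -/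
def mulV (r : ℝ) (hr : 0 < r) (v : V3) : V3 := ⟨r • v.1, smul_ne_zero hr.ne' v.2⟩

def Cert.K (ct : Cert) (c : Cell) : Set V3 :=
  match c with
  | Cell.box l i j => {v | ∃ r > 0, ∃ t ∈ Icc ((ct.col i).a : ℝ) (ct.col i).b,
      ∃ u ∈ Icc (((ct.col i).box j).lo : ℝ) ((ct.col i).box j).hi,
      v.1 = (r * sg (!l)) • (ct.col i).ch.pt t u}
  | Cell.top l i => {v | ∃ r > 0, ∃ t ∈ Icc ((ct.col i).a : ℝ) (ct.col i).b,
      ∃ s ∈ Icc (0 : ℝ) 1,
      v.1 = (r * sg (!l)) • (s • (ct.col i).ch.pt t (ct.col i).H + (1 - s) • pole false)}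
  | Cell.bot l i => {v | ∃ r > 0, ∃ t ∈ Icc ((ct.col i).a : ℝ) (ct.col i).b,
      ∃ s ∈ Icc (0 : ℝ) 1,
      v.1 = (r * sg (!l)) • (s • (ct.col i).ch.pt t (ct.col i).L + (1 - s) • pole true)}
  | Cell.pole l => {v | ∃ r > 0, v.1 = (r : ℝ) • pole l}

/-- the function whose zero set is the curve -/
noncomputable def fV (F : MvPolynomial (Fin 3) ℝ) (v : V3) : ℝ := eval v.1 F

/-! ### abstract covers -/

/-- a labelled cover of `ℝ³ \ 0` by closed cones -/
structure Cover (f : V3 → ℝ) (par : List ℕ) {ι : Type} (K : ι → Set V3) (lab : ι → S3 → ℤ)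
    (rk : ι → S3 → ℕ) (inv : ι → ι) : Prop where
  m_pos : 0 < par.length
  tree : ∀ i < par.length, par.getD i 0 ≤ i
  cont : Continuous f
  fneg : ∀ x, f (negV x) = f x
  fmul : ∀ x r hr, ∀ s : S3, s.Has (f (mulV r hr x)) ↔ s.Has (f x)
  closed : ∀ i, IsClosed (K i)
  cone : ∀ i x r hr, x ∈ K i → mulV r hr x ∈ K i
  conn : ∀ i, IsPreconnected (K i)
  part : ∀ i s, IsPreconnected (K i ∩ {x | S3.Has s (f x)})
  cover : ∀ x, ∃ i, x ∈ K i
  glue : ∀ i j s x, x ∈ K i → x ∈ K j → s.Has (f x) → lab i s = lab j s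
  rank : ∀ i s, (K i ∩ {x | S3.Has s (f x)}).Nonempty → rk i s = 0 ∨
    ∃ j, (K i ∩ K j ∩ {x | S3.Has s (f x)}).Nonempty ∧ rk j s < rk i s
  root : ∀ i j s s', (K i ∩ {x | S3.Has s (f x)}).Nonempty →
    (K j ∩ {x | S3.Has s' (f x)}).Nonempty → rk i s = 0 → rk j s' = 0 →
    (s = S3.z ↔ s' = S3.z) → lab i s = lab j s' → i = j ∧ s = s'
  range : ∀ i s, (K i ∩ {x | S3.Has s (f x)}).Nonempty →
    (lab i s).natAbs ≤ par.length ∧ (s = S3.z → lab i s ≠ 0)
  oval : ∀ i, (K i ∩ {x | S3.Has S3.z (f x)}).Nonempty →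
    (K i ∩ {x | S3.Has S3.p (f x)}).Nonempty ∧ (K i ∩ {x | S3.Has S3.n (f x)}).Nonempty ∧
    ((lab i S3.p = lab i S3.z ∧ lab i S3.n = up par (lab i S3.z)) ∨
     (lab i S3.n = lab i S3.z ∧ lab i S3.p = up par (lab i S3.z)))
  all : ∀ o : ℤ, o ≠ 0 → o.natAbs ≤ par.length →
    ∃ i, lab i S3.z = o ∧ (K i ∩ {x | S3.Has S3.z (f x)}).Nonempty
  invK : ∀ i x, x ∈ K (inv i) ↔ negV x ∈ K i
  invlab : ∀ i s, lab (inv i) s = -lab i s

/-- region with label `l` of a cover -/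
def Rg (f : V3 → ℝ) {ι : Type} (K : ι → Set V3) (lab : ι → S3 → ℤ) (l : ℤ) : Set V3 :=
  {x | ∃ i s, s ≠ S3.z ∧ x ∈ K i ∧ s.Has (f x) ∧ lab i s = l}

/-- oval with label `o` of a cover -/
def Og (f : V3 → ℝ) {ι : Type} (K : ι → Set V3) (lab : ι → S3 → ℤ) (o : ℤ) : Set V3 :=
  {x | ∃ i, x ∈ K i ∧ f x = 0 ∧ lab i S3.z = o}

/-- `a` is a strict ancestor of `b` for the parent list `par` (labels `1..m`), depth at most `k` -/
def ancB (par : List ℕ) : ℕ → ℕ → ℕ → Bool
  | 0, _, _ => false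
  | k + 1, a, b => (par.getD (b - 1) 0 == a) ||
      (par.getD (b - 1) 0 != 0 && ancB par k a (par.getD (b - 1) 0))

/-- nesting relation given by the parent list -/
def nestOf (par : List ℕ) (i j : Fin par.length) : Prop :=
  ancB par par.length (i.1 + 1) (j.1 + 1) = true

/-- the segment describes the function `g` -/
def SegOK (g : ℝ → ℝ) (e : Seg) : Prop :=
  e.lo < e.hi ∧ 0 < sg e.sl * g e.lo ∧ 0 < sg e.sh * g e.hi ∧
  (e.df = true → e.sl = e.sh ∧ ∀ z ∈ Icc (e.lo : ℝ) e.hi, 0 < sg e.sl * g z) ∧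
  (e.mo = true → e.sl = (!e.sh) ∧
    (StrictMonoOn g (Icc (e.lo : ℝ) e.hi) ∨ StrictAntiOn g (Icc (e.lo : ℝ) e.hi)))

/-- `F` on the line with direction `(x,y)` -/
noncomputable def rayF (F : MvPolynomial (Fin 3) ℝ) (x y z : ℝ) : ℝ := eval ![x, y, z] F

/-- what the cover gives: lifts of the ovals and of their interiors -/
structure Lifts (f : V3 → ℝ) (m : ℕ) (anc : ℕ → ℕ → Prop) (Ov Dd : ℕ → Set V3) : Prop where
  oClosed : ∀ o, 1 ≤ o → o ≤ m → IsClosed (Ov o)
  oConn : ∀ o, 1 ≤ o → o ≤ m → IsConnected (Ov o)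
  dOpen : ∀ o, 1 ≤ o → o ≤ m → IsOpen (Dd o)
  dConn : ∀ o, 1 ≤ o → o ≤ m → IsConnected (Dd o)
  oCone : ∀ o x r hr, x ∈ Ov o → mulV r hr x ∈ Ov o
  dCone : ∀ o x r hr, x ∈ Dd o → mulV r hr x ∈ Dd o
  od : ∀ o, 1 ≤ o → o ≤ m → Disjoint (Ov o) (Dd o)
  od' : ∀ o, 1 ≤ o → o ≤ m → Disjoint (Ov o) (negV ⁻¹' Dd o)
  oo : ∀ o, 1 ≤ o → o ≤ m → Disjoint (Ov o) (negV ⁻¹' Ov o)
  dd : ∀ o, 1 ≤ o → o ≤ m → Disjoint (Dd o) (negV ⁻¹' Dd o)
  extOpen : ∀ o, 1 ≤ o → o ≤ m →
    IsOpen (Ov o ∪ Dd o ∪ (negV ⁻¹' Ov o ∪ negV ⁻¹' Dd o))ᶜ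
  extConn : ∀ o, 1 ≤ o → o ≤ m →
    IsConnected (Ov o ∪ Dd o ∪ (negV ⁻¹' Ov o ∪ negV ⁻¹' Dd o))ᶜ
  oo2 : ∀ o o', 1 ≤ o → o ≤ m → 1 ≤ o' → o' ≤ m → o ≠ o' → Disjoint (Ov o) (Ov o')
  oo2' : ∀ o o', 1 ≤ o → o ≤ m → 1 ≤ o' → o' ≤ m → o ≠ o' → Disjoint (Ov o) (negV ⁻¹' Ov o')
  zero : ∀ x, f x = 0 ↔ ∃ o, 1 ≤ o ∧ o ≤ m ∧ (x ∈ Ov o ∨ negV x ∈ Ov o)
  nest : ∀ o o', 1 ≤ o → o ≤ m → 1 ≤ o' → o' ≤ m → anc o o' → Ov o' ⊆ Dd o
  nest' : ∀ o o', 1 ≤ o → o ≤ m → 1 ≤ o' → o' ≤ m → ¬ anc o o' → Disjoint (Ov o') (Dd o)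
  nest2 : ∀ o o', 1 ≤ o → o ≤ m → 1 ≤ o' → o' ≤ m → Disjoint (Ov o') (negV ⁻¹' Dd o)

end Oct
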