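import Pool.Agent.helper12.Oct.All
import Pool.Agent.helper52.Oct.J5b
import Pool.Agent.helper78.Oct.J6
import Pool.Agent.helper26.Oct.P6

set_option autoImplicit false

/-!
# From the integer certificate to the arrangement
-/

open MvPolynomial Set

namespace Oct

/-- a piece of the analytic certificate: columns with the same chart -/
theorem ana_piece {d B m n tm um : ℕ} {tab : List (List ℤ)} {ch : Chart} {G : List (List ℤ)}
    {sp : Bool} (htab : tabOK d tab) (hd : Even d) (hG : G = compC d ch tab)
    (hc : ctxA B m n ch G tm um = true)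
    (hp : 0 < sg sp * (((tab.getD 0 []).getD 0 0 : ℤ) : ℝ)) {L : List Column}
    (h : L.all (colA (pkOf B m n) (cnt n) ch G tm um sp) = true) :
    ∀ c ∈ L, ColOK (polyOf d tab) sp c := by
  intro c hcL
  refine colA_sound (polyOf_homog d tab) hd ?_ hc ?_ (List.all_eq_true.1 h c hcL)
  · intro t u
    rw [hG]
    exact compC_sound htab ch t u
  · rw [eval_pole]
    exact hp

/-- the final step: existence of a nonsingular polynomial with the arrangement -/
theorem final {d : ℕ} {tab : List (List ℤ)} (hd : Even d) (h2 : 2 ≤ d) {g : Gl}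
    {L : List Column} (hg : glOK g = true) (hc : Comb (certOf g L))
    (ha : ∀ c ∈ L, ColOK (polyOf d tab) g.sp c) :
    ∃ F : MvPolynomial (Fin 3) ℝ, F.IsHomogeneous d ∧ Nonsingular F ∧
      HasArrangement F g.par.length (nestOf g.par) := by
  have hsp : (certOf g L).sp = g.sp := by
    simp only [glOK, Bool.and_eq_true, beq_iff_eq] at hg
    exact hg.1.1.1.1.1.symm
  obtain ⟨F, hF, hns, hA⟩ := perturb (polyOf_homog d tab) h2 (sp := g.sp) (cols := L) ha
  refine ⟨F, hF, hns, ?_⟩
  have := main hc hF hd (by rw [hsp]; exact hA)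
  exact this

/-- concatenation of two checked pieces -/
theorem chkAll_cat {g : Gl} {p : Column} {A S : List Column} (hA : A ≠ []) (hS : S ≠ [])
    (h1 : chkAll g p (A ++ [S.getD 0 col0]) = true)
    (h2 : chkAll g (A.getLastD col0) S = true) : chkAll g p (A ++ S) = true := by
  obtain ⟨s, S', rfl⟩ := List.exists_cons_of_ne_nil hS
  refine chkAll_append hA (by simpa using h1) ?_
  have : A.getLast hA = A.getLastD col0 := by
    rw [List.getLastD_eq_getLast?, List.getLast?_eq_getLast_of_ne_nil hA]
    rfl
  rw [this]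
  exact h2

theorem rootsL_cat {g : Gl} {i j : ℕ} {A B : List Column} {R R' : List (Cell × S3 × ℤ)}
    (h1 : rootsL g i A = R) (hj : i + A.length = j) (h2 : rootsL g j B = R') :
    rootsL g i (A ++ B) = R ++ R' := by
  rw [rootsL_append, h1, hj, h2]

theorem forall_cat {α : Type} {P : α → Prop} {A B : List α} (h1 : ∀ c ∈ A, P c)
    (h2 : ∀ c ∈ B, P c) : ∀ c ∈ A ++ B, P c := by
  intro c hc
  rcases List.mem_append.1 hc with h | h
  · exact h1 c h
  · exact h2 c h

end Oct
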