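import Pool.Agent.helper70.Oct.Defs

set_option autoImplicit false

/-!
# INTERFACE (statements with `sorry`), project OCT (MP_b7f146_ag)

Deliver module `X` as `Pool/Agent/<you>/Oct/X.lean`, `namespace Oct`, importing
`Pool.Agent.helper70.Oct.Defs` (and landed modules), same names and statements (here they are in
the namespace `Oct.If`). If you need statements of other modules import this file while you work.
-/

open MvPolynomial Set Filter Topology

namespace Oct.If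

/-! ## [OCT-A1] abstract covers: regions and ovals -/

section A1
variable {f : V3 → ℝ} {par : List ℕ} {ι : Type} [Finite ι] {K : ι → Set V3}
    {lab : ι → S3 → ℤ} {rk : ι → S3 → ℕ} {inv : ι → ι} (h : Cover f par K lab rk inv)
include h

theorem up_neg (l : ℤ) : up par (-l) = -up par l := by sorry
theorem up_nonneg {l : ℤ} (hl : 0 < l) (hm : l ≤ par.length) : 0 ≤ up par l ∧ up par l < l := by
  sorry
theorem rg_conn {l : ℤ} (hl : l.natAbs ≤ par.length) : IsConnected (Rg f K lab l) := by sorry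
theorem og_conn {o : ℤ} (ho : o ≠ 0) (hl : o.natAbs ≤ par.length) :
    IsConnected (Og f K lab o) := by sorry
theorem og_closed (o : ℤ) : IsClosed (Og f K lab o) := by sorry
theorem rg_rg {l l' : ℤ} (hl : l ≠ l') : Disjoint (Rg f K lab l) (Rg f K lab l') := by sorry
theorem og_og {l l' : ℤ} (hl : l ≠ l') : Disjoint (Og f K lab l) (Og f K lab l') := by sorry
theorem rg_og (l o : ℤ) : Disjoint (Rg f K lab l) (Og f K lab o) := by sorry
theorem rg_cover {x : V3} (hx : f x ≠ 0) : ∃ l : ℤ, l.natAbs ≤ par.length ∧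
    x ∈ Rg f K lab l := by sorry
theorem og_cover {x : V3} (hx : f x = 0) : ∃ o : ℤ, o ≠ 0 ∧ o.natAbs ≤ par.length ∧
    x ∈ Og f K lab o := by sorry
/-- an oval touches the regions `o` and `up o` -/
theorem triple {o : ℤ} (ho : o ≠ 0) (hl : o.natAbs ≤ par.length) :
    IsPreconnected (Rg f K lab o ∪ Og f K lab o ∪ Rg f K lab (up par o)) := by sorry
theorem rg_neg (l : ℤ) (x : V3) : negV x ∈ Rg f K lab (-l) ↔ x ∈ Rg f K lab l := by sorry
theorem og_neg (l : ℤ) (x : V3) : negV x ∈ Og f K lab (-l) ↔ x ∈ Og f K lab l := by sorry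
theorem rg_cone (l : ℤ) (x : V3) (r : ℝ) (hr : 0 < r) (hx : x ∈ Rg f K lab l) :
    mulV r hr x ∈ Rg f K lab l := by sorry
theorem og_cone (l : ℤ) (x : V3) (r : ℝ) (hr : 0 < r) (hx : x ∈ Og f K lab l) :
    mulV r hr x ∈ Og f K lab l := by sorry
/-- closedness criterion: a union of regions (`A`) and ovals (`B`) is closed if it contains the
oval `o` whenever it contains one of the regions `o`, `up o`. -/
theorem closed_of (A B : ℤ → Prop)
    (hAB : ∀ o : ℤ, o ≠ 0 → o.natAbs ≤ par.length → (A o ∨ A (up par o)) → B o) :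
    IsClosed {x : V3 | (∃ l, A l ∧ x ∈ Rg f K lab l) ∨ ∃ o, B o ∧ x ∈ Og f K lab o} := by sorry

end A1

/-! ## [OCT-A2] abstract covers: discs -/

theorem cover_lifts {f : V3 → ℝ} {par : List ℕ} {ι : Type} [Finite ι] {K : ι → Set V3}
    {lab : ι → S3 → ℤ} {rk : ι → S3 → ℕ} {inv : ι → ι} (h : Cover f par K lab rk inv) :
    ∃ Ov Dd : ℕ → Set V3, Lifts f par.length (fun a b => ancB par par.length a b = true) Ov Dd := by
  sorry

/-! ## [OCT-B] from the lifts to the projective plane -/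

theorem arr_of_lifts {F : MvPolynomial (Fin 3) ℝ} {d : ℕ} (hF : F.IsHomogeneous d)
    {m : ℕ} {anc : ℕ → ℕ → Prop} {Ov Dd : ℕ → Set V3}
    (h : Lifts (fV F) m anc Ov Dd) :
    HasArrangement F m (fun i j => anc (i.1 + 1) (j.1 + 1)) := by
  sorry

/-! ## [OCT-C] one box -/

theorem eval_pull (F : MvPolynomial (Fin 3) ℝ) (c : Chart) (t u : ℝ) :
    eval ![t, u] (c.pull F) = eval (c.pt t u) F := by
  sorry

theorem eval_pullEnd (F : MvPolynomial (Fin 3) ℝ) (c : Chart) (h : ℤ) (σ : Bool) (t s : ℝ) :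
    eval ![t, s] (c.pullEnd h σ F) = eval (s • c.pt t h + (1 - s) • pole (!σ)) F := by
  sorry

theorem hasDerivAt_fst (P : MvPolynomial (Fin 2) ℝ) (t u : ℝ) :
    HasDerivAt (fun x => eval ![x, u] P) (eval ![t, u] (pderiv 0 P)) t := by
  sorry

theorem hasDerivAt_snd (P : MvPolynomial (Fin 2) ℝ) (t u : ℝ) :
    HasDerivAt (fun x => eval ![t, x] P) (eval ![t, u] (pderiv 1 P)) u := by
  sorry

theorem box_conn {F : MvPolynomial (Fin 3) ℝ} {col : Column} {b : Box} (h : BoxOK F col b)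
    (hR : 0 < col.R) (hs : 0 < b.s) (s : S3) :
    IsPreconnected {p : ℝ × ℝ | p.1 ∈ Icc (col.a : ℝ) col.b ∧ p.2 ∈ Icc (b.lo : ℝ) b.hi ∧
      s.Has (eval (col.ch.pt p.1 p.2) F)} := by
  sorry

theorem box_act {F : MvPolynomial (Fin 3) ℝ} {col : Column} {b : Box} (h : BoxOK F col b)
    (hR : 0 < col.R) (hs : 0 < b.s) (s : S3) :
    (∃ t ∈ Icc (col.a : ℝ) col.b, ∃ u ∈ Icc (b.lo : ℝ) b.hi,
      s.Has (eval (col.ch.pt t u) F)) ↔ b.Act s := by
  sorry

/-! ## [OCT-D] the pencil of directions -/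

section D
variable {ct : Cert} (h : Comb ct)
include h

theorem col_pos {i : ℕ} (hi : i < ct.n) : ct.col i ∈ ct.cols := by
  sorry

theorem scal_pos {i : ℕ} (hi : i + 1 < ct.n) :
    0 < ((ct.col i).scal (ct.col (i + 1))).1 ∧ 0 < ((ct.col i).scal (ct.col (i + 1))).2 := by
  sorry

theorem scalS_pos : 0 < ((ct.col (ct.n - 1)).scalS (ct.col 0)).1 ∧
    0 < ((ct.col (ct.n - 1)).scalS (ct.col 0)).2 := by
  sorry

theorem scalS_eq :
    ((ct.col (ct.n - 1)).scalS (ct.col 0)).1 * (ct.col (ct.n - 1)).ch.vxZ (ct.col (ct.n - 1)).b =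
      -(((ct.col (ct.n - 1)).scalS (ct.col 0)).2 * (ct.col 0).ch.vxZ (ct.col 0).a) ∧
    ((ct.col (ct.n - 1)).scalS (ct.col 0)).1 * (ct.col (ct.n - 1)).ch.vyZ (ct.col (ct.n - 1)).b =
      -(((ct.col (ct.n - 1)).scalS (ct.col 0)).2 * (ct.col 0).ch.vyZ (ct.col 0).a) := by
  sorry

theorem vy_nonneg {i : ℕ} (hi : i < ct.n) {t : ℝ} (ht : t ∈ Icc ((ct.col i).a : ℝ) (ct.col i).b) :
    0 ≤ (ct.col i).ch.vy t ∧ ¬ ((ct.col i).ch.vx t = 0 ∧ (ct.col i).ch.vy t = 0) := by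
  sorry

theorem sector_cover {x y : ℝ} (hy : 0 ≤ y) (hxy : ¬ (x = 0 ∧ y = 0)) :
    ∃ i < ct.n, ∃ t ∈ Icc ((ct.col i).a : ℝ) (ct.col i).b, ∃ r > 0,
      x = r * (ct.col i).ch.vx t ∧ y = r * (ct.col i).ch.vy t := by
  sorry

/-- same lift: the same column or consecutive columns -/
theorem sector_unique {i j : ℕ} (hij : i ≤ j) (hj : j < ct.n) {t t' r r' : ℝ}
    (ht : t ∈ Icc ((ct.col i).a : ℝ) (ct.col i).b) (ht' : t' ∈ Icc ((ct.col j).a : ℝ) (ct.col j).b)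
    (hr : 0 < r) (hr' : 0 < r') (hx : r * (ct.col i).ch.vx t = r' * (ct.col j).ch.vx t')
    (hy : r * (ct.col i).ch.vy t = r' * (ct.col j).ch.vy t') :
    (i = j ∧ t = t' ∧ r = r') ∨ (j = i + 1 ∧ t = (ct.col i).b ∧ t' = (ct.col j).a ∧
      ∃ ρ > 0, r = ρ * (((ct.col i).scal (ct.col j)).1 : ℝ) ∧
        r' = ρ * (((ct.col i).scal (ct.col j)).2 : ℝ)) := by
  sorry

/-- opposite lifts: last and first column -/
theorem sector_seam {i j : ℕ} (hi : i < ct.n) (hj : j < ct.n) {t t' r r' : ℝ}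
    (ht : t ∈ Icc ((ct.col i).a : ℝ) (ct.col i).b) (ht' : t' ∈ Icc ((ct.col j).a : ℝ) (ct.col j).b)
    (hr : 0 < r) (hr' : 0 < r') (hx : r * (ct.col i).ch.vx t = -(r' * (ct.col j).ch.vx t'))
    (hy : r * (ct.col i).ch.vy t = -(r' * (ct.col j).ch.vy t')) :
    (i = ct.n - 1 ∧ j = 0 ∧ t = (ct.col i).b ∧ t' = (ct.col j).a ∧
      ∃ ρ > 0, r = ρ * (((ct.col i).scalS (ct.col j)).1 : ℝ) ∧
        r' = ρ * (((ct.col i).scalS (ct.col j)).2 : ℝ)) ∨
    (j = ct.n - 1 ∧ i = 0 ∧ t' = (ct.col j).b ∧ t = (ct.col i).a ∧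
      ∃ ρ > 0, r' = ρ * (((ct.col j).scalS (ct.col i)).1 : ℝ) ∧
        r = ρ * (((ct.col j).scalS (ct.col i)).2 : ℝ)) := by
  sorry

end D

/-! ## [OCT-E] segments of a ray -/

theorem pres_sound {g : ℝ → ℝ} (hg : Continuous g) {e e' : Seg} (he : SegOK g e)
    (he' : SegOK g e') (hp : pres e e' ≠ none) {z : ℝ} (hz : z ∈ Icc (e.lo : ℝ) e.hi)
    (hz' : z ∈ Icc (e'.lo : ℝ) e'.hi) {s : S3} (hs : s.Has (g z)) : Pres e e' s := by
  sorry

theorem pres_exist {g : ℝ → ℝ} (hg : Continuous g) {e e' : Seg} (he : SegOK g e)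
    (he' : SegOK g e') {s : S3} (h : Pres e e' s) :
    ∃ z ∈ Icc (e.lo : ℝ) e.hi, z ∈ Icc (e'.lo : ℝ) e'.hi ∧ s.Has (g z) := by
  sorry

theorem segOK_flip {g : ℝ → ℝ} {e : Seg} (he : SegOK g e) : SegOK (fun z => g (-z)) e.flip := by
  sorry

theorem segOK_right {F : MvPolynomial (Fin 3) ℝ} {d : ℕ} (hF : F.IsHomogeneous d) {col : Column}
    {b : Box} (h : BoxOK F col b) (hR : 0 < col.R) (hs : 0 < b.s) (hal : 0 < col.ch.al)
    (par : List ℕ) (s0 : Bool) {m : ℤ} (hm : 0 < m) :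
    SegOK (rayF F (m * col.ch.vxZ col.b : ℤ) (m * col.ch.vyZ col.b : ℤ))
      (segOf par s0 col.ch (col.ch.beZ col.b) m true b) := by
  sorry

theorem segOK_left {F : MvPolynomial (Fin 3) ℝ} {d : ℕ} (hF : F.IsHomogeneous d) {col : Column}
    {b : Box} (h : BoxOK F col b) (hR : 0 < col.R) (hs : 0 < b.s) (hal : 0 < col.ch.al)
    (par : List ℕ) (s0 : Bool) {m : ℤ} (hm : 0 < m) :
    SegOK (rayF F (m * col.ch.vxZ col.a : ℤ) (m * col.ch.vyZ col.a : ℤ))
      (segOf par s0 col.ch (col.ch.beZ col.a) m false b) := by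
  sorry

/-! ## [OCT-F] the cells: topology and covering -/

section F
variable {ct : Cert} (h : Comb ct) {F : MvPolynomial (Fin 3) ℝ} {d : ℕ} (hF : F.IsHomogeneous d)
  (hd : Even d) (ha : AnaOK F ct.sp ct.cols)
include h

theorem K_closed (c : Cell) (hc : ct.Valid c) : IsClosed (ct.K c) := by
  sorry

theorem K_conn (c : Cell) (hc : ct.Valid c) : IsPreconnected (ct.K c) := by
  sorry

theorem K_cone (c : Cell) (x : V3) (r : ℝ) (hr : 0 < r) (hx : x ∈ ct.K c) :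
    mulV r hr x ∈ ct.K c := by
  sorry

theorem K_cover (x : V3) : ∃ c, ct.Valid c ∧ x ∈ ct.K c := by
  sorry

theorem K_inv_box (l : Bool) (i j : ℕ) (x : V3) :
    x ∈ ct.K (Cell.box (!l) i j) ↔ negV x ∈ ct.K (Cell.box l i j) := by
  sorry

theorem K_inv_top (l : Bool) (i : ℕ) (x : V3) :
    x ∈ ct.K (Cell.top (!l) i) ↔ negV x ∈ ct.K (Cell.top l i) := by
  sorry

theorem K_inv_bot (l : Bool) (i : ℕ) (x : V3) :
    x ∈ ct.K (Cell.bot (!l) i) ↔ negV x ∈ ct.K (Cell.bot l i) := by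
  sorry

theorem K_inv_pole (l : Bool) (x : V3) :
    x ∈ ct.K (Cell.pole (!l)) ↔ negV x ∈ ct.K (Cell.pole l) := by
  sorry

/-- description of the unbounded cells: half lines above the highest level, and the pole -/
theorem mem_top_iff (l : Bool) {i : ℕ} (hi : i < ct.n) (x : V3) :
    x ∈ ct.K (Cell.top l i) ↔ x ∈ ct.K (Cell.pole l) ∨
      ∃ r > 0, ∃ t ∈ Icc ((ct.col i).a : ℝ) (ct.col i).b, ∃ u : ℝ, ((ct.col i).H : ℝ) ≤ u ∧
        x.1 = (r * sg (!l)) • (ct.col i).ch.pt t u := by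
  sorry

theorem mem_bot_iff (l : Bool) {i : ℕ} (hi : i < ct.n) (x : V3) :
    x ∈ ct.K (Cell.bot l i) ↔ x ∈ ct.K (Cell.pole (!l)) ∨
      ∃ r > 0, ∃ t ∈ Icc ((ct.col i).a : ℝ) (ct.col i).b, ∃ u : ℝ, u ≤ ((ct.col i).L : ℝ) ∧
        x.1 = (r * sg (!l)) • (ct.col i).ch.pt t u := by
  sorry

/-- all the signs on a cell -/
theorem cell_act (hF : F.IsHomogeneous d) (hd : Even d) (ha : AnaOK F ct.sp ct.cols)
    (c : Cell) (hc : ct.Valid c) (s : S3) :
    (ct.K c ∩ {x | s.Has (fV F x)}).Nonempty ↔ ct.Act c s := by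
  sorry

theorem cell_part (hF : F.IsHomogeneous d) (hd : Even d) (ha : AnaOK F ct.sp ct.cols)
    (c : Cell) (hc : ct.Valid c) (s : S3) :
    IsPreconnected (ct.K c ∩ {x | s.Has (fV F x)}) := by
  sorry

end F

/-! ## [OCT-G] labels agree -/

theorem cell_glue {ct : Cert} (h : Comb ct) {F : MvPolynomial (Fin 3) ℝ} {d : ℕ}
    (hF : F.IsHomogeneous d) (hd : Even d) (ha : AnaOK F ct.sp ct.cols) (c c' : Cell)
    (hc : ct.Valid c) (hc' : ct.Valid c') (s : S3) (x : V3) (hx : x ∈ ct.K c) (hx' : x ∈ ct.K c')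
    (hs : s.Has (fV F x)) : ct.clab c s = ct.clab c' s := by
  sorry

/-! ## [OCT-H] ranks -/

theorem cell_rank {ct : Cert} (h : Comb ct) {F : MvPolynomial (Fin 3) ℝ} {d : ℕ}
    (hF : F.IsHomogeneous d) (hd : Even d) (ha : AnaOK F ct.sp ct.cols) (c : Cell)
    (hc : ct.Valid c) (s : S3) (hs : ct.Act c s) : ct.crk c s = 0 ∨
    ∃ c', ct.Valid c' ∧ (ct.K c ∩ ct.K c' ∩ {x | s.Has (fV F x)}).Nonempty ∧
      ct.crk c' s < ct.crk c s := by
  sorry

/-! ## [OCT-I] a certificate gives a cover, main theorem -/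

theorem main {ct : Cert} (h : Comb ct) {F : MvPolynomial (Fin 3) ℝ} {d : ℕ}
    (hF : F.IsHomogeneous d) (hd : Even d) (ha : AnaOK F ct.sp ct.cols) :
    HasArrangement F ct.par.length (nestOf ct.par) := by
  sorry

/-! ## [OCT-K] stability -/

theorem anaOK_stable {F : MvPolynomial (Fin 3) ℝ} (G : MvPolynomial (Fin 3) ℝ) {sp : Bool}
    {cols : List Column} (h : AnaOK F sp cols) :
    ∀ᶠ ε in 𝓝 (0 : ℝ), AnaOK (F + C ε * G) sp cols := by
  sorry

/-! ## [OCT-L] nonsingularity of almost all the members of a pencil -/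

theorem nonsing_generic {F : MvPolynomial (Fin 3) ℝ} {d : ℕ} (hF : F.IsHomogeneous d)
    (hd : 2 ≤ d) :
    {ε : ℝ | ¬ Nonsingular (F + C ε * (X 0 ^ d + X 1 ^ d + X 2 ^ d))}.Finite := by
  sorry

theorem perturb {F : MvPolynomial (Fin 3) ℝ} {d : ℕ} (hF : F.IsHomogeneous d) (hd : 2 ≤ d)
    {sp : Bool} {cols : List Column} (h : AnaOK F sp cols) :
    ∃ F' : MvPolynomial (Fin 3) ℝ, F'.IsHomogeneous d ∧ Nonsingular F' ∧ AnaOK F' sp cols := by
  sorry

end Oct.If
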