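import Pool.Agent.helper70.Oct.Chk

set_option autoImplicit false

/-!
# INTERFACE 2 (statements with `sorry`): soundness of the integer checker, project OCT

Deliver module `X` as `Pool/Agent/<you>/Oct/X.lean`, `namespace Oct`, importing
`Pool.Agent.helper70.Oct.Chk` (and landed modules), same names and statements (here they are in
the namespace `Oct.If2`).
-/

open MvPolynomial Set Filter Topology

namespace Oct.If2

/-! ## [OCT-J1] digits -/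

theorem digits_nonneg {B N : ℕ} (hB : 1 ≤ B) (k : ℕ → ℤ) (hk : ∀ i < N, |k i| < 2 ^ (B - 1))
    (x : ℕ) (hx : (x : ℤ) ≡ ∑ i ∈ Finset.range N, k i * (2 : ℤ) ^ (B * i) [ZMOD 2 ^ (B * N)])
    (hm : Nat.land x (mask B N) = 0) : ∀ i < N, 0 ≤ k i := by
  sorry

/-! ## [OCT-J2] nonnegative coefficients -/

theorem core {B m n : ℕ} {G : List (List ℤ)} {tm um : ℕ} (hs : sizeOK B m n G tm um = true)
    {a b : ℕ} (ha : a ≤ tm) (hb : b ≤ tm) {p0 p1 q0 q1 : ℤ} (hp : |p0| + |p1| ≤ 2 * um)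
    (hq : |q0| + |q1| ≤ 2) {x : ℕ}
    (hx : (x : ℤ) ≡ homT (R := ℤ) m n G (a + b * 2 ^ (B * (n + 1))) (1 + 2 ^ (B * (n + 1)))
        (p0 + p1 * 2 ^ B) (q0 + q1 * 2 ^ B)
      - (1 + 2 ^ (B * (n + 1))) ^ m * (q0 + q1 * 2 ^ B) ^ n [ZMOD 2 ^ (B * ((m + 1) * (n + 1)))])
    (hm : Nat.land x (mask B ((m + 1) * (n + 1))) = 0) (s w : ℝ) (hs0 : 0 ≤ s) (hw : 0 ≤ w) :
    (1 + s) ^ m * (q0 + q1 * w) ^ n ≤
      homT (R := ℝ) m n G (a + b * s) (1 + s) (p0 + p1 * w) (q0 + q1 * w) := by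
  sorry

/-! ## [OCT-J3] from the homogeneous form to the table -/

theorem homT_eq {m n : ℕ} {G : List (List ℤ)} (hn : G.length ≤ n + 1)
    (hm : ∀ l ∈ G, l.length ≤ m + 1) {A D A' D' : ℝ} (hD : D ≠ 0) (hD' : D' ≠ 0) :
    homT m n G A D A' D' = D ^ m * D' ^ n * evT G (A / D) (A' / D') := by
  sorry

/-- box -/
theorem pos_box {m n : ℕ} {G : List (List ℤ)} (hn : G.length ≤ n + 1)
    (hm : ∀ l ∈ G, l.length ≤ m + 1) {a b lo hi : ℝ}
    (h : ∀ s w : ℝ, 0 ≤ s → 0 ≤ w → (1 + s) ^ m * (1 + w) ^ n ≤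
      homT m n G (a + b * s) (1 + s) (lo + hi * w) (1 + w)) :
    ∀ t ∈ Icc a b, ∀ u ∈ Icc lo hi, 1 ≤ evT G t u := by
  sorry

/-- upper half line -/
theorem pos_top {m n : ℕ} {G : List (List ℤ)} (hn : G.length ≤ n + 1)
    (hm : ∀ l ∈ G, l.length ≤ m + 1) {a b H : ℝ}
    (h : ∀ s w : ℝ, 0 ≤ s → 0 ≤ w → (1 + s) ^ m ≤
      homT m n G (a + b * s) (1 + s) (H + w) 1) :
    ∀ t ∈ Icc a b, ∀ u, H ≤ u → 1 ≤ evT G t u := by
  sorry

/-- lower half line -/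
theorem pos_bot {m n : ℕ} {G : List (List ℤ)} (hn : G.length ≤ n + 1)
    (hm : ∀ l ∈ G, l.length ≤ m + 1) {a b L : ℝ}
    (h : ∀ s w : ℝ, 0 ≤ s → 0 ≤ w → (1 + s) ^ m ≤
      homT m n G (a + b * s) (1 + s) (L - w) 1) :
    ∀ t ∈ Icc a b, ∀ u, u ≤ L → 1 ≤ evT G t u := by
  sorry

/-- derivatives of tables -/
theorem hasDerivAt_dT (G : List (List ℤ)) (t u : ℝ) :
    HasDerivAt (fun x => evT G x u) (evT (dT G) t u) t := by
  sorry

theorem hasDerivAt_dU (G : List (List ℤ)) (t u : ℝ) :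
    HasDerivAt (fun x => evT G t x) (evT (dU G) t u) u := by
  sorry

/-! ## [OCT-J4] the packed arithmetic computes the homogeneous forms

`Neg` = negated table. In the three theorems the witness `x` is the number tested by `tst`. -/

def negT (G : List (List ℤ)) : List (List ℤ) := G.map (fun l => l.map (fun c => -c))

theorem sizeOK_neg (B m n : ℕ) (G : List (List ℤ)) (tm um : ℕ) :
    sizeOK B m n (negT G) tm um = sizeOK B m n G tm um := by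
  sorry

theorem evT_neg (G : List (List ℤ)) (t u : ℝ) : evT (negT G) t u = -evT G t u := by
  sorry

theorem rep_box {B m n : ℕ} {G : List (List ℤ)} {tm um : ℕ} (hs : sizeOK B m n G tm um = true)
    (a b lo hi : ℕ) (s : Bool)
    (h : tst (pkOf B m n) (rwOf (pkOf B m n) (vOf (pkOf B m n) G a b)) s
      (ivl (pkOf B m n) lo hi) = true) :
    ∃ x : ℕ, ((x : ℤ) ≡ homT (R := ℤ) m n (if s then G else negT G) (a + b * 2 ^ (B * (n + 1)))
        (1 + 2 ^ (B * (n + 1))) (lo + hi * 2 ^ B) (1 + 1 * 2 ^ B)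
      - (1 + 2 ^ (B * (n + 1))) ^ m * (1 + 1 * 2 ^ B) ^ n [ZMOD 2 ^ (B * ((m + 1) * (n + 1)))]) ∧
      Nat.land x (mask B ((m + 1) * (n + 1))) = 0 := by
  sorry

theorem rep_boxU {B m n : ℕ} {G : List (List ℤ)} {tm um : ℕ} (hs : sizeOK B m n G tm um = true)
    (hs' : sizeOK B m n (dU G) tm um = true)
    (a b lo hi : ℕ) (s : Bool)
    (h : tst (pkOf B m n) (rwOf (pkOf B m n) (zipM (vOf (pkOf B m n) G a b).tail (cnt n))) s
      (ivl (pkOf B m n) lo hi) = true) :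
    ∃ x : ℕ, ((x : ℤ) ≡ homT (R := ℤ) m n (if s then dU G else negT (dU G)) (a + b * 2 ^ (B * (n + 1)))
        (1 + 2 ^ (B * (n + 1))) (lo + hi * 2 ^ B) (1 + 1 * 2 ^ B)
      - (1 + 2 ^ (B * (n + 1))) ^ m * (1 + 1 * 2 ^ B) ^ n [ZMOD 2 ^ (B * ((m + 1) * (n + 1)))]) ∧
      Nat.land x (mask B ((m + 1) * (n + 1))) = 0 := by
  sorry

theorem rep_cap {B m n : ℕ} {G : List (List ℤ)} {tm um : ℕ} (hs : sizeOK B m n G tm um = true)
    (a b L H : ℕ) (s : Bool)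
    (h : capA (pkOf B m n) (vOf (pkOf B m n) G a b) um s L H = true) :
    (H ≤ um ∧ L ≤ um) ∧ (∃ x : ℕ, ((x : ℤ) ≡ homT (R := ℤ) m n (if s then G else negT G)
        (a + b * 2 ^ (B * (n + 1))) (1 + 2 ^ (B * (n + 1))) (H + 1 * 2 ^ B) (1 + 0 * 2 ^ B)
      - (1 + 2 ^ (B * (n + 1))) ^ m * (1 + 0 * 2 ^ B) ^ n [ZMOD 2 ^ (B * ((m + 1) * (n + 1)))]) ∧
      Nat.land x (mask B ((m + 1) * (n + 1))) = 0) ∧
    (∃ x : ℕ, ((x : ℤ) ≡ homT (R := ℤ) m n (if s then G else negT G)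
        (a + b * 2 ^ (B * (n + 1))) (1 + 2 ^ (B * (n + 1))) (L + (-1) * 2 ^ B) (1 + 0 * 2 ^ B)
      - (1 + 2 ^ (B * (n + 1))) ^ m * (1 + 0 * 2 ^ B) ^ n [ZMOD 2 ^ (B * ((m + 1) * (n + 1)))]) ∧
      Nat.land x (mask B ((m + 1) * (n + 1))) = 0) := by
  sorry

/-! ## [OCT-J5] soundness of the analytic test of a column -/

theorem tst_box {B m n : ℕ} {G : List (List ℤ)} {tm um : ℕ} (hs : sizeOK B m n G tm um = true)
    {a b lo hi : ℕ} (ha : a ≤ tm) (hb : b ≤ tm) (hlo : lo ≤ um) (hhi : hi ≤ um) {s : Bool}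
    (h : tst (pkOf B m n) (rwOf (pkOf B m n) (vOf (pkOf B m n) G a b)) s
      (ivl (pkOf B m n) lo hi) = true) :
    ∀ t ∈ Icc (a : ℝ) b, ∀ u ∈ Icc (lo : ℝ) hi, 0 < sg s * evT G t u := by
  sorry

theorem tst_boxU {B m n : ℕ} {G : List (List ℤ)} {tm um : ℕ} (hs : sizeOK B m n G tm um = true)
    (hs' : sizeOK B m n (dU G) tm um = true)
    {a b lo hi : ℕ} (ha : a ≤ tm) (hb : b ≤ tm) (hlo : lo ≤ um) (hhi : hi ≤ um) {s : Bool}
    (h : tst (pkOf B m n) (rwOf (pkOf B m n) (zipM (vOf (pkOf B m n) G a b).tail (cnt n))) s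
      (ivl (pkOf B m n) lo hi) = true) :
    ∀ t ∈ Icc (a : ℝ) b, ∀ u ∈ Icc (lo : ℝ) hi, 0 < sg s * evT (dU G) t u := by
  sorry

theorem cap_sound {B m n : ℕ} {G : List (List ℤ)} {tm um : ℕ} (hs : sizeOK B m n G tm um = true)
    {a b L H : ℕ} (ha : a ≤ tm) (hb : b ≤ tm) {s : Bool}
    (h : capA (pkOf B m n) (vOf (pkOf B m n) G a b) um s L H = true) :
    ∀ t ∈ Icc (a : ℝ) b, (∀ u : ℝ, (H : ℝ) ≤ u → 0 < sg s * evT G t u) ∧
      ∀ u : ℝ, u ≤ L → 0 < sg s * evT G t u := by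
  sorry

theorem colA_sound {B m n d : ℕ} {ch : Chart} {G : List (List ℤ)} {tm um : ℕ} {sp : Bool}
    {F : MvPolynomial (Fin 3) ℝ} (hF : F.IsHomogeneous d) (hd : Even d)
    (hG : ∀ t u : ℝ, eval (ch.pt t u) F = evT G t u)
    (hc : ctxA B m n ch G tm um = true) (hp : 0 < sg sp * eval ![0, 0, 1] F) {c : Column}
    (h : colA (pkOf B m n) (cnt n) ch G tm um sp c = true) : ColOK F sp c := by
  sorry

/-! ## [OCT-J6] composition with a chart -/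

theorem polyOf_homog (d : ℕ) (tab : List (List ℤ)) : (polyOf d tab).IsHomogeneous d := by
  sorry

/-- sizes: `d + 1` rows, row `i` of length `d + 1 - i` -/
def tabOK (d : ℕ) (tab : List (List ℤ)) : Prop :=
  tab.length = d + 1 ∧ ∀ i ≤ d, (tab.getD i []).length = d + 1 - i

theorem compC_sound {d : ℕ} {tab : List (List ℤ)} (htab : tabOK d tab) (ch : Chart) (t u : ℝ) :
    eval (ch.pt t u) (polyOf d tab) = evT (compC d ch tab) t u := by
  sorry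

theorem eval_pole {d : ℕ} {tab : List (List ℤ)} :
    eval ![0, 0, 1] (polyOf d tab) = (((tab.getD 0 []).getD 0 0 : ℤ) : ℝ) := by
  sorry

end Oct.If2
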