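import Pool.Agent.helper70.Oct.ChkC

set_option autoImplicit false

/-!
# INTERFACE 3 (statements with `sorry`): soundness of the combinatorial checker, project OCT

Deliver module `X` as `Pool/Agent/<you>/Oct/X.lean`, `namespace Oct`, importing
`Pool.Agent.helper70.Oct.ChkC` (and landed modules), same names and statements (here they are in
the namespace `Oct.If3`).
-/

open Set

namespace Oct.If3

/-! ## [OCT-P1] basics -/

theorem ltZ_iff (a b : ℤ) : ltZ a b = true ↔ a < b := by sorry
theorem leZ_iff (a b : ℤ) : leZ a b = true ↔ a ≤ b := by sorry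
theorem eqZ_iff (a b : ℤ) : eqZ a b = true ↔ a = b := by sorry
theorem negZ_eq (a : ℤ) : negZ a = -a := by sorry

/-- labels with absolute value at most `m` -/
theorem upF_eq {g : Gl} (hg : glOK g = true) {z : ℤ} (hz : z.natAbs ≤ g.par.length) :
    upF g.PT z = up g.par z := by
  sorry

theorem sgF_eq {g : Gl} (hg : glOK g = true) {z : ℤ} (hz : z.natAbs ≤ g.par.length) :
    sgF g.ST z = sgnR g.par g.s0 z := by
  sorry

theorem regF_eq {g : Gl} (hg : glOK g = true) {b : Box} (hz : b.lab.natAbs ≤ g.par.length)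
    (s : Bool) : regF g b s = regLab g.par g.s0 b s := by
  sorry

theorem blF_eq {g : Gl} (hg : glOK g = true) {b : Box} (hz : b.lab.natAbs ≤ g.par.length)
    (L : List Column) (s : S3) : blF g b s = (certOf g L).bl b s := by
  sorry

theorem segsF_eq {g : Gl} (hg : glOK g = true) {c : Column}
    (hz : ∀ b ∈ c.bx, b.lab.natAbs ≤ g.par.length) (t m : ℤ) (right : Bool) :
    segsF g c t m right = (edgeOf g.par g.s0 c t m right).segs := by
  sorry

theorem presF_eq {e e' : Seg} (h : e.lo ≤ e.hi) (h' : e'.lo ≤ e'.hi) (h1 : e.lo ≤ e'.hi)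
    (h2 : e'.lo ≤ e.hi) : presF e e' = pres e e' := by
  sorry

/-! ## [OCT-P2] all pairs of overlapping segments -/

/-- sorted, contiguous lists of segments -/
def Srt (L : List Seg) : Prop :=
  (∀ e ∈ L, e.lo < e.hi) ∧ ∀ i, ∀ e ∈ L[i]?, ∀ e' ∈ L[i + 1]?, e.hi = e'.lo

theorem sweep_sound {k : ℕ} {E E' : List Seg} (hE : Srt E) (hE' : Srt E')
    (h : sweep k E E' = true) : ∀ e ∈ E, ∀ e' ∈ E', okP e e' = true := by
  sorry

theorem okP_sound {e e' : Seg} (he : e.lo < e.hi) (he' : e'.lo < e'.hi) (h : okP e e' = true) :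
    pres e e' ≠ none ∧ ∀ s, Pres e e' s → e.lb s = e'.lb s := by
  sorry

/-! ## [OCT-P3] columns: order, edges, glue -/

/-- the sides of a column are sorted -/
theorem segs_srt {g : Gl} (hg : glOK g = true) {c : Column} (hc : colC g c = true) {t m : ℤ}
    (hm : 0 < m) (right : Bool) : Srt (edgeOf g.par g.s0 c t m right).segs := by
  sorry

theorem flip_srt {L : List Seg} (h : Srt L) : Srt (L.map Seg.flip).reverse := by
  sorry

/-- an edge whose levels are the ends of its list of segments -/
def EdgeFit (E : Edge) : Prop := E.segs ≠ [] ∧ E.lo = loS E.segs ∧ E.hi = hiS E.segs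

theorem edge_fit {g : Gl} (hg : glOK g = true) {c : Column} (hc : colC g c = true) (t m : ℤ)
    (right : Bool) : EdgeFit (edgeOf g.par g.s0 c t m right) := by
  sorry

theorem flip_fit {E : Edge} (h : EdgeFit E) : EdgeFit E.flip := by
  sorry

theorem glue_sound {g : Gl} {E E' : Edge} (hE : EdgeFit E) (hE' : EdgeFit E') (hs : Srt E.segs)
    (hs' : Srt E'.segs) (h : glueF g E.segs E'.segs = true) : EdgeGlue g.sp g.pl E E' := by
  sorry

/-! ## [OCT-P4] ranks -/

theorem rkCol_sound {g : Gl} (hg : glOK g = true) {L : List Column}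
    (hL : ∀ c ∈ L, colC g c = true) {i : ℕ} (hi : i < L.length) {EN EP : List Seg} {m m' : ℤ}
    (hm : 0 < m) (hm' : 0 < m')
    (h1 : m = if i + 1 < (certOf g L).n then
        (((certOf g L).col i).scal ((certOf g L).col (i + 1))).1 else
        (((certOf g L).col i).scalS ((certOf g L).col 0)).1)
    (h2 : m' = if i = 0 then
        (((certOf g L).col ((certOf g L).n - 1)).scalS ((certOf g L).col i)).2 else
        (((certOf g L).col (i - 1)).scal ((certOf g L).col i)).2)
    (hN : EN = ((certOf g L).eN i).segs) (hP : EP = ((certOf g L).eP i).segs)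
    (hN' : ∀ e ∈ EN, e.lo < e.hi) (hP' : ∀ e ∈ EP, e.lo < e.hi)
    (h : rkCol ((certOf g L).col i).rb0 ((certOf g L).col i).rb1 ((certOf g L).col i).rt0
      ((certOf g L).col i).rt1 none ((certOf g L).col i).bx
      (segsF g ((certOf g L).col i) ((certOf g L).col i).b m true)
      (segsF g ((certOf g L).col i) ((certOf g L).col i).a m' false) EN EP = true) :
    ∀ j < ((certOf g L).col i).bx.length, ∀ l s, (((certOf g L).col i).box j).Act s →
      (certOf g L).BoxRank i j l s := by
  sorry

/-! ## [OCT-P5] roots -/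

theorem roots_sound {g : Gl} (hg : glOK g = true) {L : List Column}
    (hL : ∀ c ∈ L, colC g c = true) (h : rootsOK g (rootsP g ++ rootsL g 0 L) = true) :
    (∀ c c' s s', (certOf g L).Valid c → (certOf g L).Valid c' → (certOf g L).Act c s →
      (certOf g L).Act c' s' → (certOf g L).crk c s = 0 → (certOf g L).crk c' s' = 0 →
      (s = S3.z ↔ s' = S3.z) → (certOf g L).clab c s = (certOf g L).clab c' s' →
      c = c' ∧ s = s') ∧
    ∀ o : ℤ, o ≠ 0 → o.natAbs ≤ (certOf g L).m →
      ∃ c, (certOf g L).Valid c ∧ (certOf g L).Act c S3.z ∧ (certOf g L).clab c S3.z = o := by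
  sorry

/-! ## [OCT-P6] the conditions of a certificate -/

theorem chkAll_spec {g : Gl} {p : Column} {L : List Column} (h : chkAll g p L = true) {i : ℕ}
    (hi : i + 1 < L.length) :
    chk3 g ((p :: L).getD i col0) (L.getD i col0) (L.getD (i + 1) col0) = true := by
  sorry

theorem chkAll_append {g : Gl} {p h : Column} {A B : List Column} (hA : A ≠ [])
    (h1 : chkAll g p (A ++ [h]) = true) (h2 : chkAll g (A.getLast hA) (h :: B) = true) :
    chkAll g p (A ++ h :: B) = true := by
  sorry

theorem rootsL_append (g : Gl) (i : ℕ) (A B : List Column) :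
    rootsL g i (A ++ B) = rootsL g i A ++ rootsL g (i + A.length) B := by
  sorry

theorem comb_sound {g : Gl} {L : List Column} (hL : 3 ≤ L.length) (hg : glOK g = true)
    (hcol : ∀ c ∈ L, colC g c = true)
    (hfirst : chkFirst g (L.getD (L.length - 1) col0) (L.getD 0 col0) (L.getD 1 col0) = true)
    (hlast : chkLast g (L.getD (L.length - 2) col0) (L.getD (L.length - 1) col0)
      (L.getD 0 col0) = true)
    (hall : chkAll g (L.getD 0 col0) L.tail = true)
    (hroots : rootsOK g (rootsP g ++ rootsL g 0 L) = true) (hpole : poleF g L = true) :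
    Comb (certOf g L) := by
  sorry

end Oct.If3
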